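import Pool.Agent.H15.KM7.Stmts

/-!
# The labels of `Pool.LK` give labels at the window `0`
-/

set_option autoImplicit false

namespace Pool.KM7

open Finset Real
open Pool.Agent.H49.Ent Pool.Agent.H32.Dense Pool.STK Pool.KA

namespace LBLp

/-- The scaled frame. -/
noncomputable def Am (k : Fin 2 → ℕ) (M : Fin 2 → Fin 2 → ℝ) (i j : Fin 2) : ℝ := 2 ^ k i * M i j

/-- The section of a label. -/
theorem sct (hC : CONVStmt) (b : ℝ) (hb : 1 ≤ b) : ∃ C₁ : ℝ, 0 ≤ C₁ ∧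
    ∀ (J : ℕ) (k : Fin 2 → ℕ) (M : Fin 2 → Fin 2 → ℝ), (∀ i, k i ≤ J) → (∀ i j, |M i j| ≤ b) →
      (∃ B : Fin 2 → Fin 2 → ℝ, (∀ i j, |B i j| ≤ b) ∧
        ∀ i l, ∑ j, B i j * M j l = if i = l then 1 else 0) →
      ∃ q : Sec, Ok 0 J q ∧
        (∃ T : Fin 2 → Fin 2 → ℝ, (∀ i j, |T i j| ≤ C₁) ∧
          ∀ (x : Fin 2 → ℝ) (i : Fin 2), q.co x i = ∑ l, T i l * ∑ j, Am k M l j * x j) ∧
        ((k 0 : ℝ) + k 1) * Real.log 2 ≤ (2 * (q.h : ℝ) + q.p) * Real.log 2 + C₁ := by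
  obtain ⟨C₁, hC₁, h⟩ := hC b
  have hb0 : (0 : ℝ) < b := by linarith
  refine ⟨C₁ + |Real.log (2 * b * b)|, by positivity, ?_⟩
  intro J k M hk hM ⟨B, hB, hBM⟩
  have e1 : ∀ (x : Fin 2 → ℝ) (i : Fin 2), x i = ∑ j, B i j * ∑ l, M j l * x l := by
    intro x i
    have h00 := hBM i 0
    have h01 := hBM i 1
    simp only [Fin.sum_univ_two] at h00 h01 ⊢
    have : B i 0 * (M 0 0 * x 0 + M 0 1 * x 1) + B i 1 * (M 1 0 * x 0 + M 1 1 * x 1) =
        (B i 0 * M 0 0 + B i 1 * M 1 0) * x 0 + (B i 0 * M 0 1 + B i 1 * M 1 1) * x 1 := by ring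
    rw [this, h00, h01]
    fin_cases i <;> simp
  have e2 : ∀ (x : Fin 2 → ℝ) (l : Fin 2),
      ∑ j, Am k M l j * x j = 2 ^ k l * ∑ j, M l j * x j := by
    intro x l
    rw [Finset.mul_sum]
    exact Finset.sum_congr rfl fun j _ => by unfold Am; ring
  have hone : ∀ (l : Fin 2) (y : ℝ), |y| ≤ |2 ^ k l * y| := by
    intro l y
    rw [abs_mul]
    have : (1 : ℝ) ≤ |(2 : ℝ) ^ k l| := by
      rw [abs_of_pos (by positivity)]
      exact one_le_pow₀ (by norm_num)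
    nlinarith [abs_nonneg y]
  obtain ⟨q, hq, ⟨T, hT, hco⟩, hdet, _⟩ := h 0 J (Am k M) (Nat.zero_le _)
    (by
      intro x i
      rw [pow_zero, one_mul, e2, e2]
      calc |x i| = |B i 0 * ∑ l, M 0 l * x l + B i 1 * ∑ l, M 1 l * x l| := by
            rw [e1 x i, Fin.sum_univ_two]
        _ ≤ |B i 0| * |∑ l, M 0 l * x l| + |B i 1| * |∑ l, M 1 l * x l| := by
            refine (abs_add_le _ _).trans ?_
            rw [abs_mul, abs_mul]
        _ ≤ b * |2 ^ k 0 * ∑ l, M 0 l * x l| + b * |2 ^ k 1 * ∑ l, M 1 l * x l| := by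
            refine add_le_add (mul_le_mul (hB i 0) (hone 0 _) (abs_nonneg _) hb0.le)
              (mul_le_mul (hB i 1) (hone 1 _) (abs_nonneg _) hb0.le)
        _ = b * (|2 ^ k 0 * ∑ l, M 0 l * x l| + |2 ^ k 1 * ∑ l, M 1 l * x l|) := by ring)
    (by
      intro i j
      unfold Am
      rw [abs_mul, abs_of_pos (by positivity : (0 : ℝ) < 2 ^ k i), mul_comm]
      exact mul_le_mul (hM i j) (pow_le_pow_right₀ (by norm_num) (hk i)) (by positivity) hb0.le)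
  refine ⟨q, hq, ⟨T, fun i j => (hT i j).trans (by
    have := abs_nonneg (Real.log (2 * b * b)); linarith), hco⟩, ?_⟩
  -- the determinant
  have hd : (B 0 0 * B 1 1 - B 0 1 * B 1 0) * (M 0 0 * M 1 1 - M 0 1 * M 1 0) = 1 := by
    have h00 := hBM 0 0
    have h01 := hBM 0 1
    have h10 := hBM 1 0
    have h11 := hBM 1 1
    rw [Fin.sum_univ_two] at h00 h01 h10 h11
    norm_num at h00 h01 h10 h11
    have : (B 0 0 * B 1 1 - B 0 1 * B 1 0) * (M 0 0 * M 1 1 - M 0 1 * M 1 0) =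
        (B 0 0 * M 0 0 + B 0 1 * M 1 0) * (B 1 0 * M 0 1 + B 1 1 * M 1 1) -
        (B 0 0 * M 0 1 + B 0 1 * M 1 1) * (B 1 0 * M 0 0 + B 1 1 * M 1 0) := by ring
    rw [this, h00, h01, h10, h11]
    ring
  have hBd : |B 0 0 * B 1 1 - B 0 1 * B 1 0| ≤ 2 * b * b := by
    calc |B 0 0 * B 1 1 - B 0 1 * B 1 0| ≤ |B 0 0 * B 1 1| + |B 0 1 * B 1 0| := abs_sub _ _
      _ = |B 0 0| * |B 1 1| + |B 0 1| * |B 1 0| := by rw [abs_mul, abs_mul]
      _ ≤ b * b + b * b := add_le_add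
          (mul_le_mul (hB 0 0) (hB 1 1) (abs_nonneg _) hb0.le)
          (mul_le_mul (hB 0 1) (hB 1 0) (abs_nonneg _) hb0.le)
      _ = 2 * b * b := by ring
  have hMd : 1 ≤ 2 * b * b * |M 0 0 * M 1 1 - M 0 1 * M 1 0| := by
    have : |B 0 0 * B 1 1 - B 0 1 * B 1 0| * |M 0 0 * M 1 1 - M 0 1 * M 1 0| = 1 := by
      rw [← abs_mul, hd, abs_one]
    have h2 := mul_le_mul_of_nonneg_right hBd (abs_nonneg (M 0 0 * M 1 1 - M 0 1 * M 1 0))
    linarith
  have hMp : 0 < |M 0 0 * M 1 1 - M 0 1 * M 1 0| := by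
    rcases (abs_nonneg (M 0 0 * M 1 1 - M 0 1 * M 1 0)).eq_or_lt with h0 | h0
    · rw [← h0] at hMd; norm_num at hMd
    · exact h0
  have hlog : 0 ≤ Real.log (2 * b * b) + Real.log |M 0 0 * M 1 1 - M 0 1 * M 1 0| := by
    rw [← Real.log_mul (by positivity) hMp.ne']
    exact Real.log_nonneg hMd
  have hA : Am k M 0 0 * Am k M 1 1 - Am k M 0 1 * Am k M 1 0 =
      2 ^ (k 0 + k 1) * (M 0 0 * M 1 1 - M 0 1 * M 1 0) := by
    unfold Am
    rw [pow_add]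
    ring
  have hAl : Real.log |Am k M 0 0 * Am k M 1 1 - Am k M 0 1 * Am k M 1 0| =
      ((k 0 : ℝ) + k 1) * Real.log 2 + Real.log |M 0 0 * M 1 1 - M 0 1 * M 1 0| := by
    rw [hA, abs_mul, abs_of_pos (by positivity : (0 : ℝ) < 2 ^ (k 0 + k 1)),
      Real.log_mul (by positivity) hMp.ne', Real.log_pow]
    push_cast
    ring
  rw [hAl] at hdet
  have := le_abs_self (Real.log (2 * b * b))
  linarith

/-- Two points in the same cell of the label are in neighbouring cells of the section. -/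
theorem nbr {C₁ : ℝ} (hC₁ : 0 ≤ C₁) {k : Fin 2 → ℕ} {M : Fin 2 → Fin 2 → ℝ} {q : Sec}
    {T : Fin 2 → Fin 2 → ℝ} (hT : ∀ i j, |T i j| ≤ C₁)
    (hco : ∀ (x : Fin 2 → ℝ) (i : Fin 2), q.co x i = ∑ l, T i l * ∑ j, Am k M l j * x j)
    {x y : Fin 2 → ℝ} (h : flk k (mco M x) = flk k (mco M y)) (i : Fin 2) :
    |((q.lb x i - q.lb y i : ℤ) : ℝ)| ≤ 2 * C₁ + 1 := by
  have e2 : ∀ (x : Fin 2 → ℝ) (l : Fin 2),
      ∑ j, Am k M l j * x j = 2 ^ k l * mco M x l := by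
    intro x l
    unfold mco
    rw [Finset.mul_sum]
    exact Finset.sum_congr rfl fun j _ => by unfold Am; ring
  have h1 : ∀ l, |2 ^ k l * mco M x l - 2 ^ k l * mco M y l| ≤ 1 := by
    intro l
    have := congrFun h l
    unfold flk at this
    exact (Int.abs_sub_lt_one_of_floor_eq_floor this).le
  have h2 : |q.co x i - q.co y i| ≤ 2 * C₁ := by
    rw [hco x i, hco y i]
    simp only [e2]
    rw [Fin.sum_univ_two, Fin.sum_univ_two]
    have e : T i 0 * (2 ^ k 0 * mco M x 0) + T i 1 * (2 ^ k 1 * mco M x 1) -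
        (T i 0 * (2 ^ k 0 * mco M y 0) + T i 1 * (2 ^ k 1 * mco M y 1)) =
        T i 0 * (2 ^ k 0 * mco M x 0 - 2 ^ k 0 * mco M y 0) +
        T i 1 * (2 ^ k 1 * mco M x 1 - 2 ^ k 1 * mco M y 1) := by ring
    rw [e]
    refine (abs_add_le _ _).trans ?_
    rw [abs_mul, abs_mul]
    have a0 := mul_le_mul (hT i 0) (h1 0) (abs_nonneg _) hC₁
    have a1 := mul_le_mul (hT i 1) (h1 1) (abs_nonneg _) hC₁
    linarith
  have h3 : q.lb x i = ⌊q.co x i⌋ := rfl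
  have h4 : q.lb y i = ⌊q.co y i⌋ := rfl
  have f1 := Int.floor_le (q.co x i)
  have f2 := Int.lt_floor_add_one (q.co x i)
  have f3 := Int.floor_le (q.co y i)
  have f4 := Int.lt_floor_add_one (q.co y i)
  rw [abs_le] at h2 ⊢
  rw [h3, h4]
  push_cast
  constructor <;> linarith

end LBLp

open LBLp in
/-- **(LBL)** -/
theorem lbl_thm (hC : CONVStmt) : LBLStmt := by
  classical
  intro b hb
  obtain ⟨C₁, hC₁, hs⟩ := sct hC b hb
  set C₂ : ℝ := 4 * Real.log (2 * (2 * C₁ + 1) + 1) with hC₂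
  have hC₂0 : 0 ≤ C₂ := by
    have : 0 ≤ Real.log (2 * (2 * C₁ + 1) + 1) := Real.log_nonneg (by linarith)
    positivity
  refine ⟨C₁ + C₂, by positivity, ?_⟩
  intro κ hκ0 hκ1 J F B
  have hp := F.isLaw.nonneg
  have h1 := F.isLaw.sum_one
  -- the section as a function of the label
  have hex : ∀ ω, ∃ q : Sec, Ok 0 J q ∧
        (∃ T : Fin 2 → Fin 2 → ℝ, (∀ i j, |T i j| ≤ C₁) ∧
          ∀ (x : Fin 2 → ℝ) (i : Fin 2),
            q.co x i = ∑ l, T i l * ∑ j, Am (B.k ω) (B.M ω) l j * x j) ∧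
        ((B.k ω 0 : ℝ) + B.k ω 1) * Real.log 2 ≤ (2 * (q.h : ℝ) + q.p) * Real.log 2 + C₁ :=
    fun ω => hs J (B.k ω) (B.M ω) (B.le ω) (B.bd ω) (B.inv ω)
  let Q : (Fin 2 → ℕ) × (Fin 2 → Fin 2 → ℝ) → Sec := fun z =>
    if h : ∃ q : Sec, Ok 0 J q ∧
        (∃ T : Fin 2 → Fin 2 → ℝ, (∀ i j, |T i j| ≤ C₁) ∧
          ∀ (x : Fin 2 → ℝ) (i : Fin 2),
            q.co x i = ∑ l, T i l * ∑ j, Am z.1 z.2 l j * x j) ∧
        ((z.1 0 : ℝ) + z.1 1) * Real.log 2 ≤ (2 * (q.h : ℝ) + q.p) * Real.log 2 + C₁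
    then h.choose else ⟨false, 0, 0, 0⟩
  have hQ : ∀ ω, Ok 0 J (Q (B.k ω, B.M ω)) ∧
        (∃ T : Fin 2 → Fin 2 → ℝ, (∀ i j, |T i j| ≤ C₁) ∧
          ∀ (x : Fin 2 → ℝ) (i : Fin 2),
            (Q (B.k ω, B.M ω)).co x i = ∑ l, T i l * ∑ j, Am (B.k ω) (B.M ω) l j * x j) ∧
        ((B.k ω 0 : ℝ) + B.k ω 1) * Real.log 2 ≤
          (2 * ((Q (B.k ω, B.M ω)).h : ℝ) + (Q (B.k ω, B.M ω)).p) * Real.log 2 + C₁ := by
    intro ω
    have e : Q (B.k ω, B.M ω) = (hex ω).choose := dif_pos (hex ω)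
    rw [e]
    exact (hex ω).choose_spec
  let q : F.Ω → Sec := fun ω => Q (B.k ω, B.M ω)
  refine ⟨F.Ω, F.fin, F.p, F.isLaw, id, q, ?_, fun e _ => (hQ e).1, ?_⟩
  · intro ω
    change law F.p id ω = F.p ω
    unfold law
    have : ∀ x : F.Ω, (if id x = ω then F.p x else 0) = if x = ω then F.p x else 0 :=
      fun x => rfl
    rw [Finset.sum_congr rfl fun x _ => this x]
    exact (Finset.sum_ite_eq' Finset.univ ω F.p).trans (if_pos (Finset.mem_univ _))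
  set G : Fam 2 0 := (F.trc 0 (Nat.zero_le _)).ext F.p F.isLaw id with hG
  -- the entropy of the new label
  have hx : ∀ ω, G.x ω = F.u ω := by
    intro ω
    funext i
    have ht : G.T ω = 0 := by
      have := G.tim ω
      simpa using this
    change G.u ω i + G.t ω * G.d ω i = F.u ω i
    unfold Fam.t
    rw [ht]
    have : ((0 : ℕ) : ℝ) / 2 ^ 0 * G.d ω i = 0 := by simp
    rw [this, add_zero]
    rfl
  have hdd : ∀ ω, (fun i => G.d ω i / 2 ^ 0) = F.d ω := by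
    intro ω
    funext i
    rw [pow_zero, div_one]
    rfl
  have hT0 : ∀ ω, G.T ω = 0 := by
    intro ω
    have := G.tim ω
    simpa using this
  have hLab : ∀ ω, Lab G q ω = ((0, q ω), ((q ω).lb (F.u ω), (q ω).lb (F.d ω))) := by
    intro ω
    unfold Lab
    rw [hT0, hx, hdd]
  have hent : CH F.p (Lab G q) F.Z ≤ CH F.p B.lab F.Z + C₂ := by
    refine (CH_le_add hp (Lab G q) B.lab F.Z).trans ?_
    refine add_le_add le_rfl ?_
    have a1 : CH F.p (Lab G q) (fun ω => (B.lab ω, F.Z ω)) ≤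
        CH F.p (fun ω => ((q ω).lb (F.u ω), (q ω).lb (F.d ω))) (fun ω => (B.lab ω, F.Z ω)) := by
      refine CH_mono_left hp ?_
      intro ω ω' _ _ h
      have e1 := (Prod.ext_iff.mp h).1
      have e2 := (Prod.ext_iff.mp (Prod.ext_iff.mp h).2).1
      have e3 : (B.k ω, B.M ω) = (B.k ω', B.M ω') := (Prod.ext_iff.mp e2).1
      have e4 : q ω = q ω' := congrArg Q e3
      have e5 : ((q ω).lb (F.u ω), (q ω).lb (F.d ω)) = ((q ω').lb (F.u ω'), (q ω').lb (F.d ω')) :=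
        e1
      rw [hLab, hLab, e5, e4]
    refine a1.trans ((CH_subadd hp _ _ _).trans ?_)
    have key : ∀ v : F.Ω → Fin 2 → ℝ, (∀ ω ω', B.lab ω = B.lab ω' →
        flk (B.k ω) (mco (B.M ω) (v ω)) = flk (B.k ω') (mco (B.M ω') (v ω'))) →
        CH F.p (fun ω => (q ω).lb (v ω)) (fun ω => (B.lab ω, F.Z ω)) ≤
          2 * Real.log (2 * (2 * C₁ + 1) + 1) := by
      intro v hv
      have := CH_le_vec hp h1 (fun ω => (q ω).lb (v ω)) (fun ω => (B.lab ω, F.Z ω))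
        (fun _ => 2 * C₁ + 1) (by
          intro ω ω' _ _ h i
          have e2 := (Prod.ext_iff.mp h).1
          have e3 : (B.k ω, B.M ω) = (B.k ω', B.M ω') := (Prod.ext_iff.mp e2).1
          have e4 : q ω = q ω' := congrArg Q e3
          have e5 := hv ω ω' e2
          obtain ⟨T, hT, hco⟩ := (hQ ω').2.1
          have e6 : B.k ω = B.k ω' := (Prod.ext_iff.mp e3).1
          have e7 : B.M ω = B.M ω' := (Prod.ext_iff.mp e3).2
          rw [e6, e7] at e5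
          rw [e4]
          exact nbr hC₁ hT hco e5 i)
      rw [Ex_const h1] at this
      exact_mod_cast this
    have k1 := key F.u (fun ω ω' h => (Prod.ext_iff.mp (Prod.ext_iff.mp h).2).1)
    have k2 := key F.d (fun ω ω' h => (Prod.ext_iff.mp (Prod.ext_iff.mp h).2).2)
    rw [hC₂]
    linarith
  -- the volume
  have hvol : 2 * (J * Real.log 2) - (∑ ω, F.p ω * ∑ i, ((J : ℝ) - B.k ω i)) * Real.log 2 -
      κ * (J * Real.log 2) - C₁ ≤
      Ex F.p (fun ω => (2 * ((q ω).h : ℝ) + (1 - κ) * (q ω).p) * Real.log 2) := by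
    have a1 : Ex F.p (fun ω => ((2 * (J : ℝ) - ∑ i, ((J : ℝ) - B.k ω i)) * Real.log 2 -
        κ * (J * Real.log 2) - C₁)) ≤
        Ex F.p (fun ω => (2 * ((q ω).h : ℝ) + (1 - κ) * (q ω).p) * Real.log 2) := by
      refine Ex_mono hp fun ω _ => ?_
      have hl2 : 0 < Real.log 2 := Real.log_pos (by norm_num)
      have b1 := (hQ ω).2.2
      have b2 : ((q ω).p : ℝ) ≤ J := by
        have := (hQ ω).1.hi
        have h3 : (q ω).p ≤ J := by
          change (Q (B.k ω, B.M ω)).p ≤ J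
          omega
        exact_mod_cast h3
      rw [Fin.sum_univ_two]
      change ((B.k ω 0 : ℝ) + B.k ω 1) * Real.log 2 ≤
          (2 * ((q ω).h : ℝ) + (q ω).p) * Real.log 2 + C₁ at b1
      have b3 : κ * (((q ω).p : ℝ) * Real.log 2) ≤ κ * (J * Real.log 2) :=
        mul_le_mul_of_nonneg_left (mul_le_mul_of_nonneg_right b2 hl2.le) hκ0
      nlinarith [b1, b3]
    have a2 : Ex F.p (fun ω => ((2 * (J : ℝ) - ∑ i, ((J : ℝ) - B.k ω i)) * Real.log 2 -
        κ * (J * Real.log 2) - C₁)) =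
        2 * (J * Real.log 2) - (∑ ω, F.p ω * ∑ i, ((J : ℝ) - B.k ω i)) * Real.log 2 -
      κ * (J * Real.log 2) - C₁ := by
      have : ∀ ω, ((2 * (J : ℝ) - ∑ i, ((J : ℝ) - B.k ω i)) * Real.log 2 -
        κ * (J * Real.log 2) - C₁) = (2 * (J * Real.log 2) - κ * (J * Real.log 2) - C₁) -
          Real.log 2 * (∑ i, ((J : ℝ) - B.k ω i)) := by intro ω; ring
      simp only [this]
      rw [Ex_sub, Ex_const h1, Ex_smul]
      unfold Ex
      ring
    rw [← a2]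
    exact a1
  unfold Psi
  change (2 - κ) * (J * Real.log 2) - B.cost - (C₁ + C₂) ≤
    ((0 : ℕ) : ℝ) * Real.log 2 +
      Ex F.p (fun ω => (2 * ((q ω).h : ℝ) + (1 - κ) * (q ω).p) * Real.log 2) -
      CH F.p (Lab G q) F.Z
  unfold Pool.LK.Lbl.cost
  push_cast
  linarith

end Pool.KM7
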